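import Pool.Agent.N714.Dec.Fin

/-!
# The Erdős–Turán conjecture for bases with decoders of constant depth or with few digit probes

`rep A k n` is the number of unordered representations of `n` as a sum of `k` elements of `A`.
A decoder computes, from the binary digits `x` of `n - b`, for the `2 ^ m` consecutive numbers
`n = b, …, b + 2 ^ m - 1`, the binary digits of `h` elements of `A` with sum `n`. Nothing is
required of the basis `A` itself: it may be thin, very irregular and hard to enumerate. The number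
`k` in `rep A k` and the number `h` of summands of the decoder are unrelated: `A` may be a basis of
order `1000` and one may ask whether `A` is a Sidon set.

Circuits (`Circuit (Fin m)` of `Pool.Agent.H568R2.Defs`): `m` input bits, NOT gates and AND and OR
gates with any number of inputs, `size` is the number of gates, `nodeDepth` the depth of a node
(inputs have depth 0).

1. Inequality for circuits. Arbitrary sets `A i` (`i < h`), a circuit of size at most `S` with nodes
   of depth at most `D` which computes from `x ∈ {0,1}^m` the digits of `h` numbers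
   `a_i(x) ∈ A i` below `2 ^ (K m)`, such that every number is `∑ a_i(x)` for at most `T` inputs
   `x`. Then `exp (c m / (log S) ^ (2 D + 2)) ≤ T ∏_i (2 rep (A i) k (N i))` for some numbers
   `N i < k 2 ^ (K m)`, for every `k ≥ 2`.
2. If `rep A k` is bounded for some `k ≥ 2`, then decoders of depth `D` for `2 ^ m` consecutive
   numbers have at least `exp (c m ^ (1 / (2 D + 2)))` gates.
3. If there are decoders of depth `D` with polynomially many gates for infinitely many `m`, then
   `rep A k n ≥ exp (c log n / (log log n) ^ (2 D + 2))` for infinitely many `n`, for all `k ≥ 2`.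
4. Inequality for digit probes: the same as 1. if each digit of each `a_i(x)` is found by at most
   `t` adaptive probes of digits of `x`, with `exp (c m / t ^ 2)`, `c = log 2 / (4608 h K)`.
5. If `rep A k` is bounded for some `k ≥ 2`, then decoders need at least `c √m` probes.
6. If `B (log m) ^ e` probes suffice for infinitely many `m`, then
   `rep A k n ≥ exp (c log n / (log log n) ^ (2 e))` for infinitely many `n`; for a bounded number
   of probes (`e = 0`) this is a power of `n`.

Outline. Random restrictions (switching lemma) give a cube of inputs on which each digit of each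
`a_i` depends on at most one free variable. Variables on which no digit depends are few, as the sum
determines `x` up to `T` possibilities; so, up to a factor `h`, some `a_i` depends on many of them,
it is injective there, and complementary inputs have values of `a_i` with a constant sum.
-/

set_option autoImplicit false

namespace Pool.Agent.Results.MP_d5a1e1_nt.ConstantDepthDecoders

open DomAC0 Filter

/-- The number of unordered representations of `n` as a sum of `k` elements of `A`. -/
noncomputable def rep (A : Set ℕ) (k n : ℕ) : ℕ :=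
  Set.ncard {s : Multiset ℕ | Multiset.card s = k ∧ (∀ a ∈ s, a ∈ A) ∧ s.sum = n}

/-- The number whose binary digits are `f 0 x, …, f (n - 1) x`. -/
noncomputable def number {m n : ℕ} (f : Fin n → (Fin m → Bool) → Bool) (x : Fin m → Bool) : ℕ :=
  ∑ j : Fin n, if f j x = true then 2 ^ (j : ℕ) else 0

/-- The number with the binary digits `x`. -/
def num {m : ℕ} (x : Fin m → Bool) : ℕ := ∑ i : Fin m, if x i = true then 2 ^ (i : ℕ) else 0

/-- `f x` can be found by at most `t` adaptive probes of digits of `x` (decision tree of depth at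
most `t`). -/
def Probes {m : ℕ} : ℕ → ((Fin m → Bool) → Bool) → Prop
  | 0, f => ∃ b, ∀ x, f x = b
  | t + 1, f => (∃ b, ∀ x, f x = b) ∨
      ∃ i : Fin m, ∀ b : Bool, Probes t fun x => f (Function.update x i b)

/-- For some `b ≤ 2 ^ (K m)` and all inputs `x`, the `f i j x` (`j < n`) are the binary digits of
elements `a_i ∈ A` (`i < h`) with `∑ a_i = b + num x`: a representation of each of the `2 ^ m`
numbers from `b` to `b + 2 ^ m - 1`. -/
def Decoder (A : Set ℕ) {h m n : ℕ} (K : ℕ) (f : Fin h → Fin n → (Fin m → Bool) → Bool) : Prop :=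
  (∀ i x, number (f i) x ∈ A) ∧ ∃ b ≤ 2 ^ (K * m), ∀ x, ∑ i, number (f i) x = b + num x

/-- A decoder by a circuit with `S` gates, the digits being computed at nodes of depth at most
`D`. -/
def CircuitDecoder (A : Set ℕ) (h K m D S : ℕ) : Prop :=
  ∃ (n : ℕ) (C : Circuit (Fin m)) (out : Fin h → Fin n → Fin m ⊕ Fin C.size),
    C.size = S ∧ (∀ i j, C.nodeDepth (out i j) ≤ D) ∧
      Decoder A K fun i j x => C.nodeVal x (out i j)

/-- A decoder for which each digit is found by at most `t` adaptive probes. -/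
def ProbeDecoder (A : Set ℕ) (h K m t : ℕ) : Prop :=
  ∃ (n : ℕ) (f : Fin h → Fin n → (Fin m → Bool) → Bool),
    (∀ i j, Probes t (f i j)) ∧ Decoder A K f

theorem dt {m : ℕ} : ∀ (t : ℕ) (f : (Fin m → Bool) → Bool), Probes t f → H592R3.DT t f
  | 0, _, h => h
  | t + 1, f, h => by
      rcases h with h | ⟨i, hi⟩
      · exact Or.inl h
      · exact Or.inr ⟨i, fun b => by
          have := dt t _ (hi b)
          convert this using 3⟩

/-- **The Erdős–Turán conjecture for bases with decoders of constant depth or with few digit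
probes.** -/
theorem result :
    -- 1. the inequality for circuits
    (∀ D K h : ℕ, 1 ≤ K → 1 ≤ h → ∃ c : ℝ, 0 < c ∧ ∀ (m n S T k : ℕ) (A : Fin h → Set ℕ)
      (C : Circuit (Fin m)) (out : Fin h → Fin n → Fin m ⊕ Fin C.size),
      1 ≤ m → 2 ≤ S → m ≤ S → C.size ≤ S → 2 ≤ k → (∀ i j, C.nodeDepth (out i j) ≤ D) →
      (∀ i x, number (fun j x => C.nodeVal x (out i j)) x ∈ A i) →
      (∀ i x, number (fun j x => C.nodeVal x (out i j)) x < 2 ^ (K * m)) →
      (∀ v : ℕ, {x : Fin m → Bool |
        ∑ i, number (fun j x => C.nodeVal x (out i j)) x = v}.ncard ≤ T) →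
      ∃ N : Fin h → ℕ, (∀ i, N i < k * 2 ^ (K * m)) ∧
        Real.exp (c * m / Real.log S ^ (2 * D + 2)) ≤
          T * ∏ i, (2 * (rep (A i) k (N i) : ℝ))) ∧
    -- 2. the size of decoders for sets with a bounded representation function
    (∀ (A : Set ℕ) (k R h D K : ℕ), 2 ≤ k → 1 ≤ h → (∀ n, rep A k n ≤ R) →
      ∃ c : ℝ, 0 < c ∧ ∀ᶠ m : ℕ in atTop, ∀ S : ℕ, CircuitDecoder A h K m D S →
        Real.exp (c * (m : ℝ) ^ (1 / (2 * D + 2) : ℝ)) ≤ S) ∧
    -- 3. decoders of constant depth and polynomial size
    (∀ (A : Set ℕ) (k h D K e : ℕ), 2 ≤ k → 1 ≤ h →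
      (∃ᶠ m : ℕ in atTop, ∃ S ≤ m ^ e, CircuitDecoder A h K m D S) →
      ∃ c : ℝ, 0 < c ∧ ∃ᶠ n : ℕ in atTop,
        Real.exp (c * Real.log n / Real.log (Real.log n) ^ (2 * D + 2)) ≤ rep A k n) ∧
    -- 4. the inequality for digit probes
    (∀ (m n K t h k T : ℕ) (A : Fin h → Set ℕ) (f : Fin h → Fin n → (Fin m → Bool) → Bool),
      1 ≤ K → 1 ≤ h → 1 ≤ t → 2 ≤ k → (∀ i j, Probes t (f i j)) →
      (∀ i x, number (f i) x ∈ A i) → (∀ i x, number (f i) x < 2 ^ (K * m)) →
      (∀ v : ℕ, {x : Fin m → Bool | ∑ i, number (f i) x = v}.ncard ≤ T) →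
      ∃ N : Fin h → ℕ, (∀ i, N i < k * 2 ^ (K * m)) ∧
        Real.exp (Real.log 2 / (4608 * (h * K)) * (m / t ^ 2)) ≤
          T * ∏ i, (2 * (rep (A i) k (N i) : ℝ))) ∧
    -- 5. the number of probes for sets with a bounded representation function
    (∀ (A : Set ℕ) (k R h K : ℕ), 2 ≤ k → 1 ≤ h → (∀ n, rep A k n ≤ R) →
      ∃ c : ℝ, 0 < c ∧ ∀ᶠ m : ℕ in atTop, ∀ t : ℕ, ProbeDecoder A h K m t →
        c * Real.sqrt m ≤ t) ∧
    -- 6. decoders with few probes
    (∀ (A : Set ℕ) (k h K B e : ℕ), 2 ≤ k → 1 ≤ h →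
      (∃ᶠ m : ℕ in atTop, ∃ t : ℕ, (t : ℝ) ≤ B * Real.log m ^ e ∧ ProbeDecoder A h K m t) →
      ∃ c : ℝ, 0 < c ∧ ∃ᶠ n : ℕ in atTop,
        Real.exp (c * Real.log n / Real.log (Real.log n) ^ (2 * e)) ≤ rep A k n) := by
  classical
  refine ⟨?_, ?_, ?_, ?_, ?_, ?_⟩
  · intro D K h hK hh
    obtain ⟨c, hc, H⟩ := Pool.Agent.N714.Dec.main_circ D K h hK hh
    refine ⟨c, hc, fun m n S T k A C out h1 h2 h3 h4 h5 h6 h7 h8 h9 => ?_⟩
    refine H m n S T k A C out h1 h2 h3 h4 h5 h6 h7 h8 fun v => ?_
    have h10 := h9 v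
    rw [Set.ncard_eq_toFinset_card'] at h10
    refine le_trans (le_of_eq ?_) h10
    congr 1
    ext x
    simp only [Finset.mem_filter, Finset.mem_univ, true_and, Set.mem_toFinset, Set.mem_setOf_eq]
    rfl
  · intro A k R h D K hk hh hR
    obtain ⟨c, hc, H⟩ := Pool.Agent.N714.Dec.lower A hk hR h D K hh
    refine ⟨c, hc, ?_⟩
    filter_upwards [H] with m hm
    rintro S ⟨n, C, out, rfl, hD, hC, b, hb, hC2⟩
    exact hm n b C out hb hD hC hC2
  · intro A k h D K e hk hh hf
    refine Pool.Agent.N714.Dec.growth A hk h D K e hh ?_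
    refine hf.mono ?_
    rintro m ⟨S, hS, n, C, out, rfl, hD, hC, b, hb, hC2⟩
    exact ⟨n, b, C, out, hS, hb, hD, hC, hC2⟩
  · intro m n K t h k T A f hK hh ht hk hf hA hlt hT
    refine Pool.Agent.N714.Dec.main_dt f (fun i j => dt t _ (hf i j)) hK hh ht hk A hA hlt
      fun v => ?_
    have h10 := hT v
    rw [Set.ncard_eq_toFinset_card'] at h10
    refine le_trans (le_of_eq ?_) h10
    congr 1
    ext x
    simp only [Finset.mem_filter, Finset.mem_univ, true_and, Set.mem_toFinset, Set.mem_setOf_eq]
    rfl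
  · intro A k R h K hk hh hR
    obtain ⟨c, hc, H⟩ := Pool.Agent.N714.Dec.lower_dt A hk hR h K hh
    refine ⟨c, hc, ?_⟩
    filter_upwards [H] with m hm
    rintro t ⟨n, f, hf, hC, b, hb, hC2⟩
    exact hm n b t f hb (fun i j => dt t _ (hf i j)) hC hC2
  · intro A k h K B e hk hh hf
    refine Pool.Agent.N714.Dec.growth_dt A hk h K B e hh ?_
    refine hf.mono ?_
    rintro m ⟨t, ht, n, f, hf, hC, b, hb, hC2⟩
    exact ⟨n, b, t, f, ht, hb, fun i j => dt t _ (hf i j), hC, hC2⟩

end Pool.Agent.Results.MP_d5a1e1_nt.ConstantDepthDecoders
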