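import Pool.Agent.N714.Sym.Transfer

/-!
# Bases with finitely many orbits under their multipliers

Let `A` be an asymptotic basis of order `h ≥ 2`, and let `s` be an integer with `a + s > 0` for all `a ∈ A`.  A positive
integer `m` is a multiplier if the map `x ↦ m (x + s) - s`, the dilation by `m` with centre `-s`, sends `A` into itself.
If there are finitely many elements of `A` such that the orbit of every element of `A` under the multipliers meets the orbit
of one of them, then the number of representations as a sum of `h` elements of `A` is unbounded; and if the multipliers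
needed for this are bounded by a power, it exceeds `c √(log n)` for infinitely many `n`.  The latter condition is met when
`A + s` is closed under multiplication.
-/

set_option autoImplicit false

open Filter

namespace Pool.Agent.Results.MP_d5a1e1_nt.MultiplierOrbits

/-- the number of representations of `n` as a sum of `h` elements of `A`, the order being disregarded -/
noncomputable def rep (A : Set ℕ) (h n : ℕ) : ℕ :=
  {t : Multiset ℕ | Multiset.card t = h ∧ (∀ a ∈ t, a ∈ A) ∧ t.sum = n}.ncard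

/-- the dilation by `m` with centre `-s` sends `A` into itself -/
def Mult (A : Set ℕ) (s : ℤ) (m : ℕ) : Prop := 0 < m ∧ ∀ a ∈ A, ∃ b ∈ A, (b : ℤ) + s = m * (a + s)

/-- the multiplier `m` sends `c` to the image of `a` under some multiplier -/
def Linked (A : Set ℕ) (s : ℤ) (a c m : ℕ) : Prop :=
  Mult A s m ∧ ∃ m' : ℕ, Mult A s m' ∧ (m' : ℤ) * (a + s) = m * (c + s)

theorem result (h : ℕ) (hh : 2 ≤ h) (A : Set ℕ) (hA : ∃ n₀, ∀ n, n₀ ≤ n → 0 < rep A h n) (s : ℤ)
    (hs : ∀ a ∈ A, 0 < (a : ℤ) + s) (F : Finset ℕ) (hF : ∀ a ∈ A, ∃ c ∈ F, ∃ m, Linked A s a c m) :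
    (∀ K, ∃ n, K ≤ rep A h n) ∧
    ((∃ D : ℕ, ∀ a ∈ A, ∃ c ∈ F, ∃ m, Linked A s a c m ∧ (m : ℤ) ≤ D * (a + s) ^ D) →
      ∃ c : ℝ, 0 < c ∧ ∃ᶠ n : ℕ in atTop, c * Real.sqrt (Real.log n) ≤ rep A h n) := by
  have hA' : ∃ n₀, ∀ n, n₀ ≤ n → (Pool.Agent.N714.Sym.reps A h n).Nonempty := by
    obtain ⟨n₀, hn₀⟩ := hA
    exact ⟨n₀, fun n hn => Set.nonempty_of_ncard_ne_zero (hn₀ n hn).ne'⟩
  refine ⟨Pool.Agent.N714.Sym.unbounded_main hh hA' hs F hF, ?_⟩
  rintro ⟨D, hD⟩
  exact Pool.Agent.N714.Sym.quant_main hh hA' hs F D hD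

end Pool.Agent.Results.MP_d5a1e1_nt.MultiplierOrbits
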