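import Pool.Agent.N885.NQ.Final
import Pool.Agent.N885.NQ.Cov

/-!
# Near-counterexamples to the Erdős–Turán conjecture of every order

`rep A h n` is the number `r_{A,h}(n)` of multisets of `h` elements of `A` with sum `n`.

For every `h ≥ 2` and every `r` there is a set `A` of natural numbers such that

1. `A` is an asymptotic basis of order `h`;
2. `A` is thin: `|A ∩ [1, x]| ≤ C x ^ (1 / h)`;
3. `r_{A,h}(n) ≤ C (log n) ^ m` for all `n ≥ 2`;
4. `r_{A,h}(n) = 1` for all `n` outside a set of natural density zero;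
5. `r_{A,h}(n) ≤ 2 ^ h` for all `n ≤ x` with at most `C x / (log x) ^ r` exceptions.

Construction (`Pool.Agent.N885.NQ`).  Work in base `b = h! + 1`; `T_c` is the set of the integers whose
nonzero digits are at places `≡ c (mod h)`, so every `n` is uniquely a sum of one element of each
`T_c`, `c < h`.  The digits are grouped into blocks of length `s_i ≈ q log i`.  In block `i` the digits of an
element are shifted by an offset (modulo `b ^ (h s_i)`) which depends on its lower digits and its
colour `c`; the lower digits remain uniquely decodable, for all offsets.  The offsets are chosen level by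
level by the method of conditional expectations such that the number of `k`-tuples of lower parts
with a given sum modulo `b ^ (h m_i)` is bounded by a power of `i`, for all `k ≤ h` at once (a potential
function with one exponential weight for each `k`; multiplicities `≤ h` are invertible modulo `b`).
An element with lower part `p` changes from level `i` to level `i + 1` at a scale that depends on `p` and
is equidistributed over `log i` scales, so that for most `n` there is only one possible representation;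
outside a smaller exceptional set the representation is determined by the levels (`i` or `i + 1`) of its
`h` summands.
-/

set_option autoImplicit false

namespace Pool.Agent.Results.MP_d5a1e1_nt.NearCounterexamples

open Filter

/-- the number `r_{A,h}(n)` of multisets of `h` elements of `A` with sum `n` -/
noncomputable def rep (A : Set ℕ) (h n : ℕ) : ℕ :=
  {s : Multiset ℕ | Multiset.card s = h ∧ (∀ a ∈ s, a ∈ A) ∧ s.sum = n}.ncard

theorem result (h : ℕ) (hh : 2 ≤ h) (r : ℕ) : ∃ A : Set ℕ,
    (∃ n₀ : ℕ, ∀ n ≥ n₀, 1 ≤ rep A h n) ∧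
    (∃ C : ℝ, ∀ x : ℕ, ({a : ℕ | a ∈ A ∧ 1 ≤ a ∧ a ≤ x}.ncard : ℝ) ≤ C * (x : ℝ) ^ (1 / (h : ℝ))) ∧
    (∃ (C : ℝ) (m : ℕ), ∀ n : ℕ, 2 ≤ n → (rep A h n : ℝ) ≤ C * Real.log n ^ m) ∧
    Tendsto (fun x : ℕ => ({n : ℕ | n ≤ x ∧ rep A h n ≠ 1}.ncard : ℝ) / x) atTop (nhds 0) ∧
    (∃ C : ℝ, ∀ x : ℕ, 2 ≤ x →
      ({n : ℕ | n ≤ x ∧ 2 ^ h < rep A h n}.ncard : ℝ) ≤ C * x / Real.log x ^ r) := by
  let _ : Pool.Agent.N885.NQ.QPar := ⟨6 * (r + 1), by omega⟩
  obtain ⟨v, hv⟩ := Pool.Agent.N885.NQ.hash hh
  have hT := Pool.Agent.N885.NQ.thin hh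
  have hD := Pool.Agent.N885.NQ.unqDet hh
  have hcov : ∃ n₀ : ℕ, ∀ n ≥ n₀, 1 ≤ Pool.Agent.N885.NQ.rep (Pool.Agent.N885.NQ.AA h v) h n := by
    obtain ⟨n₀, hn₀⟩ := Pool.Agent.N885.NQ.cov hh v
    refine ⟨n₀, fun n hn => ?_⟩
    obtain ⟨s, h1, h2, h3⟩ := hn₀ n hn
    have hfin : {s : Multiset ℕ | Multiset.card s = h ∧ (∀ a ∈ s, a ∈ Pool.Agent.N885.NQ.AA h v) ∧
        s.sum = n}.Finite := Pool.Agent.N885.NQ.Fi.rep_finite _ h n
    exact (Set.ncard_pos hfin).mpr ⟨s, h1, h2, h3⟩
  refine ⟨Pool.Agent.N885.NQ.AA h v, hcov, Pool.Agent.N885.NQ.Fi.thin hh hT v,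
    Pool.Agent.N885.NQ.Fi.polylog hh v (Pool.Agent.N885.NQ.pol hh v hv),
    Pool.Agent.N885.NQ.Fi.density hh hT hD v hcov, ?_⟩
  obtain ⟨C, hC⟩ := Pool.Agent.N885.NQ.Fi.two (r := r + 1) hh (by omega) rfl hT v
  refine ⟨|C| * 2, fun x hx => ?_⟩
  refine (hC x hx).trans ?_
  have hlog : (1 / 2 : ℝ) ≤ Real.log x := by
    have h1 : Real.log 2 ≤ Real.log x := Real.log_le_log (by norm_num) (by exact_mod_cast hx)
    have := Real.log_two_gt_d9
    linarith
  have hx0 : (0 : ℝ) ≤ x := Nat.cast_nonneg x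
  have hpow : (0 : ℝ) < Real.log x ^ r := by positivity
  have hpow' : (0 : ℝ) < Real.log x ^ (r + 1) := by positivity
  rw [div_le_div_iff₀ hpow' hpow, pow_succ]
  have h2 : C * x ≤ |C| * x := mul_le_mul_of_nonneg_right (le_abs_self C) hx0
  have h3 : 0 ≤ |C| * x := by positivity
  calc C * x * Real.log x ^ r ≤ |C| * x * Real.log x ^ r := mul_le_mul_of_nonneg_right h2 hpow.le
    _ = |C| * x * Real.log x ^ r * 1 := by ring
    _ ≤ |C| * x * Real.log x ^ r * (2 * Real.log x) :=
        mul_le_mul_of_nonneg_left (by linarith) (by positivity)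
    _ = _ := by ring

end Pool.Agent.Results.MP_d5a1e1_nt.NearCounterexamples
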