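import Pool.Agent.N714.Shape.Quant

/-!
# The shapes of the representations of a basis with bounded representation function

The shape of a representation `n = a_1 + … + a_h` is the point `(a_1 / n, …, a_h / n)` of the simplex.

1. Let `Z` be a compact set of shapes whose `(1 - 1/h)`-dimensional Hausdorff measure is finite.  If a set of integers `n`
   of positive upper density (for instance: all large `n`) have representations as sums of `h` elements of `A` whose shapes
   tend to `Z` as `n → ∞`, then the representation function of order `h` of `A` is unbounded.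
2. Let `Z` be covered by `B δ ^ (-d)` cubes of side `2 δ`, for every `δ ≤ 1`, where `d < 1 - 1/h`.  If a set of integers of
   positive upper density have representations with shape at distance at most `n ^ (-η)` from `Z`, then
   `r(n) ≥ c n ^ (η (1 - 1/h - d))` for infinitely many `n`.
-/

set_option autoImplicit false

open Filter Topology MeasureTheory
open scoped ENNReal

namespace Pool.Agent.Results.MP_d5a1e1_nt.RepresentationShapes

/-- the number of representations of `n` as a sum of `h` elements of `A`, the order being disregarded -/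
noncomputable def rep (A : Set ℕ) (h n : ℕ) : ℕ :=
  {s : Multiset ℕ | Multiset.card s = h ∧ (∀ a ∈ s, a ∈ A) ∧ s.sum = n}.ncard

/-- `n` is a sum of `h` elements of `A` with a shape at distance at most `e` (maximum norm) from a point of `Z` -/
def Near (A : Set ℕ) (h : ℕ) (Z : Set (Fin h → ℝ)) (e : ℝ) (n : ℕ) : Prop :=
  ∃ a : Fin h → ℕ, (∀ i, a i ∈ A) ∧ ∑ i, a i = n ∧ ∃ z ∈ Z, ∀ i, |(a i : ℝ) - z i * n| ≤ e * n

/-- the set `T` has positive upper density -/
def PosUpperDensity (T : Set ℕ) : Prop :=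
  ∃ c : ℝ, 0 < c ∧ ∃ᶠ N : ℕ in atTop, c * N ≤ ({n | n ≤ N ∧ n ∈ T}.ncard : ℝ)

theorem result (h : ℕ) (hh : 2 ≤ h) (A : Set ℕ) (Z : Set (Fin h → ℝ)) (hZ : Z ⊆ stdSimplex ℝ (Fin h)) :
    (IsCompact Z → Measure.hausdorffMeasure (1 - 1 / (h : ℝ)) Z ≠ ∞ →
      ∀ e : ℕ → ℝ, Tendsto e atTop (𝓝 0) → PosUpperDensity {n | Near A h Z (e n) n} → ∀ K, ∃ n, K < rep A h n) ∧
    (∀ d η B : ℝ, d < 1 - 1 / (h : ℝ) → 0 < η → η ≤ 1 →
      (∀ δ : ℝ, 0 < δ → δ ≤ 1 → ∃ G : Finset (Fin h → ℝ), (G : Set (Fin h → ℝ)) ⊆ Z ∧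
        (G.card : ℝ) ≤ B * δ ^ (-d) ∧ ∀ z ∈ Z, ∃ g ∈ G, ∀ i, |z i - g i| ≤ δ) →
      PosUpperDensity {n : ℕ | Near A h Z ((n : ℝ) ^ (-η)) n} →
      ∃ c : ℝ, 0 < c ∧ ∃ᶠ n : ℕ in atTop, c * (n : ℝ) ^ (η * (1 - 1 / (h : ℝ) - d)) ≤ rep A h n) := by
  constructor
  · intro hZc hH e he hT K
    by_contra hcon
    push Not at hcon
    obtain ⟨c, hc, hfr⟩ := hT
    refine hfr ((Pool.Agent.N714.Shape.density_zero _ (fun ε hε => ?_) c hc).mono fun N hN => not_le.2 hN)
    exact Pool.Agent.N714.Shape.main_crit (A := A) (R := K) hh hcon Z hZc hZ hH e he ε hε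
  · intro d η B hdh hη hη1 hcov hT
    obtain ⟨c, hc, hfr⟩ := hT
    exact Pool.Agent.N714.Shape.main_quant hh Z hZ d η B hdh hη hη1 hcov c hc hfr

end Pool.Agent.Results.MP_d5a1e1_nt.RepresentationShapes
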